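import Pool.Agent.Helper86.Poly.Goals

set_option autoImplicit false

namespace Pool.Agent.Helper1.Poly

open MeasureTheory Set Metric Pool.Agent.Helper86.Poly

namespace PkSEP

lemma pow_diff (u : ℝ) (hu : 0 ≤ u) (hu1 : u ≤ 1 / 2) (d : ℕ) :
    (1 + u) ^ d - (1 - u) ^ d ≤ d * 2 ^ d * u := by
  induction d with
  | zero => simp
  | succ d ih =>
    have h1 : (1 + u) ^ (d + 1) - (1 - u) ^ (d + 1) =
        (1 + u) * ((1 + u) ^ d - (1 - u) ^ d) + 2 * u * (1 - u) ^ d := by ring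
    rw [h1]
    have h2 : (1 - u) ^ d ≤ 1 := pow_le_one₀ (by linarith) (by linarith)
    have h3 : (0 : ℝ) ≤ (d : ℝ) * 2 ^ d * u := by positivity
    have h4 : (1 + u) * ((1 + u) ^ d - (1 - u) ^ d) ≤ 2 * (d * 2 ^ d * u) := by
      calc (1 + u) * ((1 + u) ^ d - (1 - u) ^ d) ≤ (1 + u) * (d * 2 ^ d * u) :=
            mul_le_mul_of_nonneg_left ih (by linarith)
        _ ≤ 2 * (d * 2 ^ d * u) := mul_le_mul_of_nonneg_right (by linarith) h3
    have h5 : 2 * u * (1 - u) ^ d ≤ 2 * u * 1 := mul_le_mul_of_nonneg_left h2 (by linarith)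
    have h6 : (1 : ℝ) ≤ 2 ^ d := one_le_pow₀ (by norm_num)
    have h7 : 2 * u * 1 ≤ 2 * u * 2 ^ d := mul_le_mul_of_nonneg_left h6 (by linarith)
    push_cast
    rw [pow_succ]
    nlinarith

/-- separated sets of unit vectors -/
def Sep (d : ℕ) (δ : ℝ) (X : Finset (E d)) : Prop :=
  (∀ x ∈ X, ‖x‖ = 1) ∧ ∀ x ∈ X, ∀ y ∈ X, x ≠ y → δ < dist x y

lemma card_le (d : ℕ) (hd : 2 ≤ d) (δ : ℝ) (hδ : 0 < δ) (hδ1 : δ ≤ 1) (X : Finset (E d))
    (hX : Sep d δ X) : (X.card : ℝ) ≤ (d * 4 ^ d : ℝ) / δ ^ (d - 1) := by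
  have : NeZero d := ⟨by omega⟩
  have : Nonempty (Fin d) := ⟨⟨0, by omega⟩⟩
  set u : ℝ := δ / 2 with hu
  have hu0 : 0 < u := by positivity
  have hu1 : u ≤ 1 / 2 := by rw [hu]; linarith
  set ω : ℝ := (volume (ball (0 : E d) 1)).toReal with hω
  have hfin : volume (ball (0 : E d) 1) ≠ ⊤ := measure_ball_lt_top.ne
  have hω0 : 0 < ω := ENNReal.toReal_pos (measure_ball_pos volume _ one_pos).ne' hfin
  have hvol : ∀ (x : E d) (r : ℝ), 0 ≤ r → (volume (ball x r)).toReal = r ^ d * ω := by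
    intro x r hr
    rw [Measure.addHaar_ball volume x hr, ENNReal.toReal_mul, ENNReal.toReal_ofReal (by positivity)]
    simp [hω]
  -- the disjoint balls
  have hdisj : (X : Set (E d)).PairwiseDisjoint fun x => ball x u := by
    intro x hx y hy hxy
    apply Metric.ball_disjoint_ball
    have := hX.2 x hx y hy hxy
    rw [hu]
    linarith
  have hunion : volume (⋃ x ∈ X, ball x u) = ∑ x ∈ X, volume (ball x u) :=
    measure_biUnion_finset hdisj fun x _ => measurableSet_ball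
  have hsub : (⋃ x ∈ X, ball x u) ⊆ ball (0 : E d) (1 + u) \ ball (0 : E d) (1 - u) := by
    intro y hy
    simp only [mem_iUnion] at hy
    obtain ⟨x, hx, hy⟩ := hy
    rw [mem_ball, dist_eq_norm] at hy
    have hx1 := hX.1 x hx
    refine ⟨?_, ?_⟩
    · rw [mem_ball_zero_iff]
      have : ‖y‖ ≤ ‖y - x‖ + ‖x‖ := by simpa using norm_add_le (y - x) x
      linarith
    · rw [mem_ball_zero_iff]
      have : ‖x‖ ≤ ‖y - x‖ + ‖y‖ := by
        have := norm_sub_le y (y - x)
        simp only [sub_sub_cancel] at this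
        linarith
      linarith
  have hsub2 : ball (0 : E d) (1 - u) ⊆ ball (0 : E d) (1 + u) := ball_subset_ball (by linarith)
  have hle : volume (⋃ x ∈ X, ball x u) ≤
      volume (ball (0 : E d) (1 + u) \ ball (0 : E d) (1 - u)) := measure_mono hsub
  have hdiff : volume (ball (0 : E d) (1 + u) \ ball (0 : E d) (1 - u)) =
      volume (ball (0 : E d) (1 + u)) - volume (ball (0 : E d) (1 - u)) :=
    measure_sdiff hsub2 measurableSet_ball.nullMeasurableSet measure_ball_lt_top.ne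
  have hreal : (X.card : ℝ) * (u ^ d * ω) ≤ (1 + u) ^ d * ω - (1 - u) ^ d * ω := by
    have h1 := ENNReal.toReal_mono (by
      rw [hdiff]; exact (tsub_le_self.trans_lt measure_ball_lt_top).ne) hle
    rw [hunion, ENNReal.toReal_sum (fun x _ => measure_ball_lt_top.ne), hdiff,
      ENNReal.toReal_sub_of_le (measure_mono hsub2) measure_ball_lt_top.ne,
      hvol _ _ (by linarith), hvol _ _ (by linarith)] at h1
    rw [Finset.sum_congr rfl (fun x _ => hvol x u hu0.le), Finset.sum_const, nsmul_eq_mul] at h1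
    exact h1
  have h2 : (X.card : ℝ) * u ^ d ≤ d * 2 ^ d * u := by
    have h3 := pow_diff u hu0.le hu1 d
    have h4 : (X.card : ℝ) * u ^ d * ω ≤ ((1 + u) ^ d - (1 - u) ^ d) * ω := by linarith
    exact (le_of_mul_le_mul_right h4 hω0).trans h3
  rw [le_div_iff₀ (by positivity)]
  obtain ⟨e, rfl⟩ : ∃ e, d = e + 1 := ⟨d - 1, by omega⟩
  simp only [Nat.add_sub_cancel]
  have h5 : (X.card : ℝ) * u ^ e ≤ (e + 1 : ℕ) * 2 ^ (e + 1) := by
    have : (X.card : ℝ) * u ^ e * u ≤ (e + 1 : ℕ) * 2 ^ (e + 1) * u := by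
      rw [pow_succ] at h2
      linarith
    exact le_of_mul_le_mul_right this hu0
  have h6 : δ ^ e = u ^ e * 2 ^ e := by
    rw [← mul_pow, hu]
    congr 1
    ring
  rw [h6, ← mul_assoc]
  calc (X.card : ℝ) * u ^ e * 2 ^ e ≤ (e + 1 : ℕ) * 2 ^ (e + 1) * 2 ^ e :=
        mul_le_mul_of_nonneg_right h5 (by positivity)
    _ ≤ (e + 1 : ℕ) * 2 ^ (e + 1) * 2 ^ (e + 1) := by
        apply mul_le_mul_of_nonneg_left _ (by positivity)
        exact pow_le_pow_right₀ (by norm_num) (by omega)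
    _ = (e + 1 : ℕ) * 4 ^ (e + 1) := by
        rw [mul_assoc, ← mul_pow]
        norm_num

theorem thm : G_SEP := by
  classical
  intro d hd
  refine ⟨d * 4 ^ d, by have : (0 : ℝ) < d := by exact_mod_cast (by omega : 0 < d)
                        positivity, fun δ hδ hδ1 => ?_⟩
  set S : Set ℕ := {n | ∃ X : Finset (E d), Sep d δ X ∧ X.card = n} with hS
  have hne : S.Nonempty := ⟨0, ∅, ⟨by simp, by simp⟩, rfl⟩
  have hbdd : BddAbove S := by
    refine ⟨⌈(d * 4 ^ d : ℝ) / δ ^ (d - 1)⌉₊, ?_⟩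
    rintro n ⟨X, hX, rfl⟩
    have h1 := card_le d hd δ hδ hδ1 X hX
    have h2 := Nat.le_ceil ((d * 4 ^ d : ℝ) / δ ^ (d - 1))
    exact_mod_cast h1.trans h2
  obtain ⟨X, hX, hXc⟩ := Nat.sSup_mem hne hbdd
  refine ⟨X, hX.1, card_le d hd δ hδ hδ1 X hX, fun u hu => ?_⟩
  by_contra hcon
  push Not at hcon
  have huX : u ∉ X := by
    intro h
    have := hcon u h
    rw [dist_self] at this
    linarith
  have hX' : Sep d δ (insert u X) := by
    refine ⟨?_, ?_⟩
    · intro x hx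
      rcases Finset.mem_insert.mp hx with rfl | hx
      · exact hu
      · exact hX.1 x hx
    · intro x hx y hy hxy
      rcases Finset.mem_insert.mp hx with h1 | h1 <;> rcases Finset.mem_insert.mp hy with h2 | h2
      · exact absurd (h1.trans h2.symm) hxy
      · rw [h1]; exact hcon y h2
      · rw [h2, dist_comm]; exact hcon x h1
      · exact hX.2 x h1 y h2 hxy
  have hmem : (insert u X).card ∈ S := ⟨_, hX', rfl⟩
  have h1 := le_csSup hbdd hmem
  rw [Finset.card_insert_of_notMem huX, ← hXc] at h1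
  omega

end PkSEP

end Pool.Agent.Helper1.Poly
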